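import Mathlib

set_option autoImplicit false

namespace Pool.Agent.H.SC

open SimpleGraph

theorem lt_iff {V : Type} (G : SimpleGraph V) (q : ℕ) :
    G.chromaticNumber < ((q + 1 : ℕ) : ℕ∞) ↔ ∃ c : V → Fin q, ∀ u v, G.Adj u v → c u ≠ c v := by
  rw [Nat.cast_succ, ENat.lt_add_one_iff (ENat.coe_ne_top q), chromaticNumber_le_iff_colorable]
  exact ⟨fun ⟨c⟩ => ⟨c, fun u v h => c.valid h⟩, fun ⟨c, h⟩ => ⟨Coloring.mk c (h _ _)⟩⟩

def Crit {V : Type} (G : SimpleGraph V) (q : ℕ) (x y : V) : Prop :=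
  ∃ c : V → Fin q, ∀ u v, G.Adj u v → s(u, v) ≠ s(x, y) → c u ≠ c v

theorem crit {V : Type} [Finite V] {n q : ℕ} (hq : 0 < q) (G : SimpleGraph V)
    (hG : ¬ ∃ c : V → Fin q, ∀ u v, G.Adj u v → c u ≠ c v) (H : SimpleGraph (Fin n))
    (f : Fin n → V) (hf : Function.Injective f)
    (h1 : ∀ x y, H.Adj x y → G.Adj (f x) (f y) ∧ Crit G q (f x) (f y))
    (h2 : ∀ x, ∃ w, G.Adj (f x) w ∧ Crit G q (f x) w) :
    ∃ m : ℕ, ∃ G : SimpleGraph (Fin m),
        G.chromaticNumber = ((q + 1 : ℕ) : ℕ∞) ∧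
        (∀ v w : Fin m, G.Adj v w →
          (G.deleteEdges {s(v, w)}).chromaticNumber < ((q + 1 : ℕ) : ℕ∞)) ∧
        (∀ v : Fin m, (G.induce ({v}ᶜ : Set (Fin m))).chromaticNumber < ((q + 1 : ℕ) : ℕ∞)) ∧
        (∃ f : H →g G, Function.Injective f) ∧ m ≤ Nat.card V := by
  classical
  have := Fintype.ofFinite V
  obtain ⟨K, ⟨K1, K2⟩, Km⟩ := (wellFounded_lt (α := SimpleGraph V)).has_min
    {K | K ≤ G ∧ ¬ ∃ c : V → Fin q, ∀ u v, K.Adj u v → c u ≠ c v} ⟨G, le_rfl, hG⟩
  have a1 : ∀ x y, K.Adj x y → Crit K q x y := by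
    intro x y h
    by_contra hc
    refine Km (K.deleteEdges {s(x, y)}) ⟨(deleteEdges_le _).trans K1, fun ⟨c, hc'⟩ =>
      hc ⟨c, fun u v a b => hc' u v (by simpa using ⟨a, by simpa using b⟩)⟩⟩
      (lt_of_le_of_ne (deleteEdges_le _) fun e => ?_)
    rw [← e] at h; simp at h
  have a2 : ∀ x y, G.Adj x y → Crit G q x y → K.Adj x y := by
    rintro x y h ⟨c, hc⟩
    by_contra hk
    refine K2 ⟨c, fun u v a => hc u v (K1 a) fun e => hk ?_⟩
    rw [← mem_edgeSet, ← e]; exact a
  let e := Fintype.equivFin K.support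
  let g : Fin (Fintype.card K.support) → V := fun i => (e.symm i).1
  have hg : Function.Injective g := Subtype.val_injective.comp e.symm.injective
  have gs : ∀ x y, K.Adj x y → ∃ i, g i = x := fun x y h => ⟨e ⟨x, y, h⟩, by simp [g]⟩
  have vc : ∀ v, ∃ c : Fin (Fintype.card K.support) → Fin q, ∀ a b, a ≠ v → b ≠ v →
      K.Adj (g a) (g b) → c a ≠ c b := by
    intro v
    obtain ⟨w, hw⟩ := (e.symm v).2
    obtain ⟨c, hc⟩ := a1 _ _ hw
    refine ⟨c ∘ g, fun a b ha hb h => hc _ _ h fun e' => ?_⟩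
    rcases Sym2.eq_iff.1 e' with h' | h'
    · exact ha (hg h'.1)
    · exact hb (hg h'.2)
  have nc : ¬ (K.comap g).chromaticNumber < ((q + 1 : ℕ) : ℕ∞) := by
    rw [lt_iff]
    rintro ⟨c, hc⟩
    refine K2 ⟨fun v => if h : ∃ i, g i = v then c h.choose else ⟨0, hq⟩, fun u v h => ?_⟩
    have b1 := gs _ _ h
    have b2 := gs _ _ h.symm
    simp only [dif_pos b1, dif_pos b2]
    exact hc _ _ (by rw [comap_adj, b1.choose_spec, b2.choose_spec]; exact h)
  refine ⟨_, K.comap g, le_antisymm ?_ (not_lt.1 nc), ?_, ?_, ?_, ?_⟩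
  · rw [chromaticNumber_le_iff_colorable]
    rcases isEmpty_or_nonempty (Fin (Fintype.card K.support)) with h | ⟨⟨v⟩⟩
    · exact ⟨Coloring.mk (fun _ => 0) (fun {a} => isEmptyElim a)⟩
    · obtain ⟨c, hc⟩ := vc v
      refine ⟨Coloring.mk (fun a => if a = v then Fin.last q else (c a).castSucc) ?_⟩
      intro a b h
      have := h.ne
      by_cases ha : a = v <;> by_cases hb : b = v
      · exact absurd (ha.trans hb.symm) this
      · simp [ha, hb, (Fin.castSucc_lt_last _).ne']
      · simp [ha, hb]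
      · simpa [ha, hb] using hc a b ha hb h
  · intro v w h
    rw [lt_iff]
    obtain ⟨c, hc⟩ := a1 _ _ h
    refine ⟨c ∘ g, fun a b h' => ?_⟩
    rw [deleteEdges_adj] at h'
    refine hc _ _ h'.1 fun e' => h'.2 ?_
    simpa [hg.eq_iff] using e'
  · intro v
    rw [lt_iff]
    obtain ⟨c, hc⟩ := vc v
    exact ⟨fun a => c a.1, fun a b h => hc _ _ a.2 b.2 h⟩
  · choose w hw using h2
    choose φ hφ using fun x => gs _ _ (a2 _ _ (hw x).1 (hw x).2)
    refine ⟨⟨φ, fun {x y} h => ?_⟩, fun x y h => hf ?_⟩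
    · rw [comap_adj, hφ, hφ]; exact a2 _ _ (h1 x y h).1 (h1 x y h).2
    · rw [← hφ, ← hφ]; exact congrArg g h
  · rw [Nat.card_eq_fintype_card]; exact Fintype.card_subtype_le _

inductive V (N p : ℕ) : Type
  | ref (i : Fin (p + 3))
  | X (x : Fin N)
  | S (b : Bool) (x : Fin N)
  | U (b : Bool) (x : Fin N)
  | W (b : Bool) (x : Fin N)
  | Z (b : Bool) (x : Fin N)
  | G (b : Bool) (x : Fin N) (β : Fin (p + 3))

def enc {N p : ℕ} : V N p → Fin (p + 3) ⊕ Fin N × Bool × (Fin 5 ⊕ Fin (p + 3))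
  | .ref i => .inl i
  | .X x => .inr (x, true, .inl 0)
  | .S b x => .inr (x, b, .inl 1)
  | .U b x => .inr (x, b, .inl 2)
  | .W b x => .inr (x, b, .inl 3)
  | .Z b x => .inr (x, b, .inl 4)
  | .G b x β => .inr (x, b, .inr β)

theorem enc_inj {N p : ℕ} : Function.Injective (enc : V N p → _) := by
  intro a b h
  cases a <;> cases b <;> simp_all [enc]

theorem fin_V (N p : ℕ) : Finite (V N p) := Finite.of_injective _ enc_inj

theorem card_V (N p : ℕ) : Nat.card (V N p) ≤ p + 3 + N * (2 * (p + 8)) := by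
  have := Nat.card_le_card_of_injective _ (enc_inj (N := N) (p := p))
  simp only [Nat.card_eq_fintype_card, Fintype.card_sum, Fintype.card_prod, Fintype.card_fin,
    Fintype.card_bool] at this
  rwa [show 5 + (p + 3) = p + 8 by ring] at this

def o (p : ℕ) (b : Bool) : Fin (p + 3) := if b then ⟨2, by omega⟩ else ⟨1, by omega⟩

theorem o0 (p : ℕ) (b : Bool) : o p b ≠ 0 := by cases b <;> simp [o, Fin.ext_iff]

theorem oo (p : ℕ) (b : Bool) : o p (!b) ≠ o p b := by cases b <;> simp [o, Fin.ext_iff]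

def A {N p : ℕ} : V N p → Fin (p + 3) → Prop
  | .ref j, i => i = j
  | .X _, _ => True
  | .S b _, i => i = 0 ∨ i = o p b
  | .U b x, i => (i = 0 ∧ x.val ≠ 0) ∨ i = o p b ∨ i = o p (!b)
  | .W b x, i => (i = 0 ∧ x.val + 1 ≠ N) ∨ i = o p (!b)
  | .Z b _, i => i = 0 ∨ i = o p (!b)
  | .G b _ β, i => i = β ∨ (β = o p b ∧ i = o p (!b)) ∨ (β ≠ o p b ∧ i = 0)

inductive R {N p : ℕ} (H : SimpleGraph (Fin N)) : V N p → V N p → Prop
  | lst (i v) : ¬ A v i → R H (.ref i) v
  | hh (x y) : H.Adj x y → R H (.X x) (.X y)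
  | ss (x y) : ¬ H.Adj x y → R H (.S false x) (.S true y)
  | su (b x) : R H (.S b x) (.U b x)
  | uw (b x) : R H (.U b x) (.W b x)
  | wu (b x y) : y.val = x.val + 1 → R H (.W b x) (.U b y)
  | sz (b x) : R H (.S b x) (.Z b x)
  | zg (b x) : R H (.Z b x) (.G b x (o p b))
  | sg (b x β) : β ≠ o p b → β ≠ 0 → R H (.S b x) (.G b x β)
  | gx (b x β) : β ≠ 0 → R H (.G b x β) (.X x)

theorem R_ne {N p : ℕ} {H : SimpleGraph (Fin N)} {u v : V N p} (h : R H u v) : u ≠ v := by
  cases h with
  | lst i v h => rintro rfl; exact h rfl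
  | hh x y h => simpa using h.ne
  | _ => simp

theorem notcol {N p : ℕ} (hN : 0 < N) (H : SimpleGraph (Fin N)) :
    ¬ ∃ c : V N p → Fin (p + 3), ∀ u v, (fromRel (R H)).Adj u v → c u ≠ c v := by
  rintro ⟨c0, h0⟩
  have h1 : ∀ u v, R H u v → c0 u ≠ c0 v := fun u v h =>
    h0 u v ((fromRel_adj _ _ _).2 ⟨R_ne h, Or.inl h⟩)
  have hi : Function.Injective (fun i => c0 (.ref i)) := fun i j h => by
    by_contra hn
    exact h1 _ _ (.lst i (.ref j) hn) h
  let σ := Equiv.ofBijective _ (Finite.injective_iff_bijective.1 hi)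
  let c : V N p → Fin (p + 3) := fun v => σ.symm (c0 v)
  have hc : ∀ u v, R H u v → c u ≠ c v := fun u v h e => h1 u v h (σ.symm.injective e)
  have hA : ∀ v, A v (c v) := fun v => by
    by_contra hn
    exact h1 _ _ (.lst _ v hn) (σ.apply_symm_apply (c0 v))
  have on : ∀ b, ∃ x, c (.S b x) = 0 := by
    intro b
    by_contra hn
    have s1 : ∀ x, c (.S b x) = o p b := fun x => (hA (.S b x)).resolve_left fun h => hn ⟨x, h⟩
    have s2 : ∀ x, c (.U b x) ≠ 0 → c (.W b x) = 0 ∧ x.val + 1 ≠ N := by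
      intro x h
      have a1 := hc _ _ (.su b x)
      have a2 := hc _ _ (.uw b x)
      have a3 := hA (.U b x)
      have a4 := hA (.W b x)
      rw [s1] at a1
      simp only [A] at a3 a4
      grind
    have s3 : ∀ i (h : i < N), c (.U b ⟨i, h⟩) ≠ 0 := by
      intro i
      induction i with
      | zero =>
        intro h e
        have a3 := hA (.U b ⟨0, h⟩)
        have := o0 p b
        have := o0 p (!b)
        simp only [A] at a3
        grind
      | succ i ih =>
        intro h e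
        exact hc _ _ (.wu b ⟨i, by omega⟩ ⟨i + 1, h⟩ rfl) ((s2 _ (ih _)).1.trans e.symm)
    exact (s2 _ (s3 (N - 1) (by omega))).2 (by simp only; omega)
  have zero : ∀ b x, c (.S b x) = 0 → c (.X x) = 0 := by
    intro b x h
    by_contra hn
    have a1 := hc _ _ (.gx b x _ hn)
    have a2 := hA (.G b x (c (.X x)))
    simp only [A] at a2
    by_cases e : c (.X x) = o p b
    · have a3 := hc _ _ (.zg b x)
      have a4 := hc _ _ (.sz b x)
      have a5 := hA (.Z b x)
      simp only [A] at a5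
      rw [e] at a1 a2
      grind
    · have a3 := hc _ _ (.sg b x _ e hn)
      grind
  obtain ⟨x, hx⟩ := on false
  obtain ⟨y, hy⟩ := on true
  by_cases h : H.Adj x y
  · exact hc _ _ (.hh x y h) ((zero _ _ hx).trans (zero _ _ hy).symm)
  · exact hc _ _ (.ss x y h) (hx.trans hy.symm)

def col {N p : ℕ} (c : Fin N → Fin (p + 3)) (j : Bool → Fin N) : V N p → Fin (p + 3)
  | .ref i => i
  | .X x => c x
  | .S b x => if x = j b then 0 else o p b
  | .U b x => if x.val < (j b).val then o p (!b) else if x = j b then o p b else 0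
  | .W b x => if x.val < (j b).val then 0 else o p (!b)
  | .Z b x => if x = j b then o p (!b) else 0
  | .G b x β => if x = j b then β else if β = o p b then (if c x = β then o p (!b) else β)
      else (if c x = 0 then β else 0)

theorem critR {N p : ℕ} (H : SimpleGraph (Fin N)) (x y : Fin N) (h : H.Adj x y)
    (c : Fin N → Fin (p + 3)) (hx : c x = 0) (hy : c y = 0)
    (hc : ∀ u v, H.Adj u v → s(u, v) ≠ s(x, y) → c u ≠ c v) :
    Crit (fromRel (R (p := p) H)) (p + 3) (.X x) (.X y) := by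
  let j : Bool → Fin N := fun b => if b then y else x
  have hj : ∀ b, c (j b) = 0 := fun b => by cases b <;> simp [j, hx, hy]
  have key : ∀ u v, R H u v → s(u, v) ≠ s(V.X x, V.X y) → col c j u ≠ col c j v := by
    intro u v hr he
    cases hr with
    | lst i v h =>
      intro e
      apply h
      rw [show i = col c j v from e]
      cases v with
      | ref => rfl
      | X => trivial
      | S b a => simp only [A, col]; grind
      | U b a => simp only [A, col, Fin.ext_iff (a := a)]; grind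
      | W b a => have := (j b).2; simp only [A, col]; grind
      | Z b a => simp only [A, col]; grind
      | G b a β => simp only [A, col]; grind
    | hh a b h => exact hc a b h (by simpa using he)
    | ss a b h' =>
      have := o0 p true
      have := o0 p false
      have := oo p true
      simp only [col, j]
      grind
    | su b a => have := o0 p b; have := o0 p (!b); have := oo p b; simp only [col]; grind
    | uw b a => have := o0 p b; have := o0 p (!b); have := oo p b; simp only [col]; grind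
    | wu b a a' h =>
      have := o0 p b; have := o0 p (!b); have := oo p b
      simp only [col, Fin.ext_iff (a := a')]; grind
    | sz b a => have := o0 p b; have := o0 p (!b); have := oo p b; simp only [col]; grind
    | zg b a => have := o0 p b; have := o0 p (!b); have := oo p b; simp only [col]; grind
    | sg b a β h1 h2 => have := o0 p b; simp only [col]; grind
    | gx b a β h1 =>
      have := o0 p b; have := o0 p (!b); have := oo p b; have := hj b; simp only [col]; grind
  refine ⟨col c j, fun u v h he => ?_⟩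
  rcases ((fromRel_adj _ _ _).1 h).2 with h | h
  · exact key u v h he
  · exact (key v u h (by rwa [Sym2.eq_swap])).symm

end Pool.Agent.H.SC
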